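import Mathlib
import Pool.Agent.H413R3.KGOpt

set_option autoImplicit false

open Filter Topology

namespace Pool.Agent.Results.MP_f5ac68_nt.NaturalDensity

open Pool.Agent.H413R3

/-- `A` contains a `k`-term geometric progression `a, a q, ..., a q ^ (k - 1)` with rational
ratio `q > 1`. -/
def HasGP (k : ℕ) (A : Set ℕ) : Prop :=
  ∃ (a : ℕ) (q : ℚ), 1 < q ∧ ∀ i < k, ∃ n ∈ A, (n : ℚ) = a * q ^ i

/-- `A` has asymptotic density `d`: the quotient `|A ∩ {1, ..., n}| / n` tends to `d`. -/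
def HasDensity (A : Set ℕ) (d : ℝ) : Prop :=
  Tendsto (fun n : ℕ => ((A ∩ Set.Icc 1 n).ncard : ℝ) / n) atTop (𝓝 d)

/-- The densities of the sets of positive integers without `k`-term geometric progressions. -/
def densities (k : ℕ) : Set ℝ :=
  {d : ℝ | ∃ A : Set ℕ, (∀ n ∈ A, 1 ≤ n) ∧ ¬ HasGP k A ∧ HasDensity A d}

/-- The constant `β_k`. -/
noncomputable def beta (k : ℕ) : ℝ := sSup (densities k)

/-- The finite set `T` of positive integers contains no `k`-term geometric progression: no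
`a < b` in `T` such that all the numbers `a (b / a) ^ i`, `i < k`, lie in `T`. -/
def Free (k : ℕ) (T : Finset ℕ) : Prop :=
  ∀ a ∈ T, ∀ b ∈ T, a < b → ∃ i ∈ Finset.range k, ∀ c ∈ T, c * a ^ i ≠ a * b ^ i

instance (k : ℕ) : DecidablePred (Free k) := fun T => by unfold Free; infer_instance

/-- The `K`-th finite optimisation problem: the maximum, over the sets `T` of divisors of
`(∏_{p < K} p) ^ K` that contain no `k`-term geometric progression, of the rational number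
`∏_{p < K} (1 - 1 / p) * ∑_{t ∈ T} 1 / t`. This is a computable function of `k` and `K`. -/
def opt (k K : ℕ) : ℚ :=
  (((∏ p ∈ Nat.primesBelow K, p) ^ K).divisors.powerset.filter (Free k)).sup' ⟨∅, by simp [Free]⟩
    (fun T => (∏ p ∈ Nat.primesBelow K, (1 - 1 / (p : ℚ))) * ∑ t ∈ T, 1 / (t : ℚ))

lemma hasGP_iff {k : ℕ} (hk : 3 ≤ k) {A : Set ℕ} (hA : ∀ n ∈ A, 1 ≤ n) :
    HasGP k A ↔ KG.HasGP k A := by
  constructor
  · rintro ⟨a, q, hq, h⟩
    obtain ⟨n0, m0, e0⟩ := h 0 (by omega)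
    rw [pow_zero, mul_one] at e0
    have e0' : n0 = a := by exact_mod_cast e0
    refine ⟨a, (q : ℝ), ?_, by exact_mod_cast hq, fun i hi => ?_⟩
    · rw [← e0']; exact_mod_cast hA n0 m0
    · obtain ⟨n, mn, e⟩ := h i hi
      exact ⟨n, mn, by exact_mod_cast congrArg (fun x : ℚ => (x : ℝ)) e⟩
  · rintro ⟨a, r, ha, hr, h⟩
    obtain ⟨n0, m0, e0⟩ := h 0 (by omega)
    obtain ⟨n1, m1, e1⟩ := h 1 (by omega)
    rw [pow_zero, mul_one] at e0
    rw [pow_one] at e1
    have hn0 : (0 : ℚ) < n0 := by exact_mod_cast hA n0 m0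
    have hn0' : (0 : ℝ) < n0 := by exact_mod_cast hA n0 m0
    have hr' : r = ((n1 / n0 : ℚ) : ℝ) := by
      push_cast
      rw [e1, ← e0]
      field_simp
    refine ⟨n0, (n1 : ℚ) / n0, ?_, fun i hi => ?_⟩
    · rw [one_lt_div hn0]
      have : (n0 : ℝ) < n1 := by rw [e0, e1]; nlinarith
      exact_mod_cast this
    · obtain ⟨n, mn, e⟩ := h i hi
      refine ⟨n, mn, ?_⟩
      have : ((n : ℚ) : ℝ) = (((n0 : ℚ) * ((n1 : ℚ) / n0) ^ i : ℚ) : ℝ) := by
        rw [Rat.cast_mul, Rat.cast_pow, ← hr']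
        push_cast
        rw [e, e0]
      exact_mod_cast this

lemma opt_eq {k : ℕ} (hk : 3 ≤ k) (K : ℕ) : (opt k K : ℝ) = KG.m k K := by
  apply KG.m_eq hk K (opt k K) (Free k)
  · intro T hT
    exact KG.freeK_iff (by omega) fun n hn => Nat.pos_of_mem_divisors (hT hn)
  · obtain ⟨T, hT, hv⟩ := Finset.exists_mem_eq_sup'
      (s := ((∏ p ∈ Nat.primesBelow K, p) ^ K).divisors.powerset.filter (Free k))
      ⟨∅, by simp [Free]⟩
      (fun T => (∏ p ∈ Nat.primesBelow K, (1 - 1 / (p : ℚ))) * ∑ t ∈ T, 1 / (t : ℚ))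
    rw [Finset.mem_filter, Finset.mem_powerset] at hT
    exact ⟨T, hT.1, hT.2, hv⟩
  · intro T hT hF
    exact Finset.le_sup'
      (fun T : Finset ℕ => (∏ p ∈ Nat.primesBelow K, (1 - 1 / (p : ℚ))) * ∑ t ∈ T, 1 / (t : ℚ))
      (Finset.mem_filter.2 ⟨Finset.mem_powerset.2 hT, hF⟩)

/-- For every `k ≥ 3` the constant `β_k` is the limit of the computable sequence of rationals
`opt k K`, with explicit error bounds, the supremum defining `β_k` is attained, and the densities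
of the sets without `k`-term geometric progressions fill the whole interval `[0, β_k]`. -/
theorem result (k : ℕ) (hk : 3 ≤ k) :
    Tendsto (fun K : ℕ => (opt k K : ℝ)) atTop (𝓝 (beta k)) ∧
    (∀ K : ℕ, 2 ≤ K →
      (opt k K : ℝ) - 1 / ((K : ℝ) - 1) ≤ beta k ∧
      beta k ≤ (opt k K : ℝ) + (K : ℝ) / 2 ^ (K + 1)) ∧
    densities k = Set.Icc 0 (beta k) := by
  obtain ⟨s, h1, h2, ⟨⟨A, a1, a2, a3⟩, h3⟩, h4⟩ := KG.full hk
  have hmem : s ∈ densities k := ⟨A, a1, fun h => a2 ((hasGP_iff hk a1).1 h), a3⟩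
  have hup : ∀ d ∈ densities k, d ≤ s := by
    rintro d ⟨B, b1, b2, b3⟩
    exact h3 ⟨B, b1, fun h => b2 ((hasGP_iff hk b1).2 h), b3⟩
  have hβ : beta k = s := IsGreatest.csSup_eq ⟨hmem, hup⟩
  have hopt : (fun K : ℕ => (opt k K : ℝ)) = KG.m k := funext (opt_eq hk)
  rw [hβ]
  refine ⟨by rw [hopt]; exact h1, fun K hK => by rw [opt_eq hk]; exact h2 K hK, ?_⟩
  ext d
  constructor
  · intro hd
    refine ⟨?_, hup d hd⟩
    obtain ⟨B, _, _, b3⟩ := hd
    exact KG.dens_nonneg b3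
  · rintro ⟨hd0, hds⟩
    by_contra hno
    have := (h4 d hd0).1 (fun B b1 b2 => by
      by_contra hb
      exact hno ⟨B, b1, fun h => hb ((hasGP_iff hk b1).1 h), b2⟩)
    linarith

end Pool.Agent.Results.MP_f5ac68_nt.NaturalDensity
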