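import Mathlib
import Pool.Agent.H413R3.KGUD

set_option autoImplicit false

open Filter Topology

namespace Pool.Agent.Results.MP_f5ac68_nt.UpperDensity

open Pool.Agent.H413R3

/-- `A` contains a `k`-term geometric progression `a, a q, ..., a q ^ (k - 1)` with rational
ratio `q > 1`. -/
def HasGP (k : ℕ) (A : Set ℕ) : Prop :=
  ∃ (a : ℕ) (q : ℚ), 1 < q ∧ ∀ i < k, ∃ n ∈ A, (n : ℚ) = a * q ^ i

/-- The upper asymptotic density of `A`: the limit superior of `|A ∩ {1, ..., n}| / n`. -/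
noncomputable def upperDensity (A : Set ℕ) : ℝ :=
  limsup (fun n : ℕ => ((A ∩ Set.Icc 1 n).ncard : ℝ) / n) atTop

/-- The upper densities of the sets of positive integers without `k`-term geometric
progressions. -/
def upperDensities (k : ℕ) : Set ℝ :=
  {d : ℝ | ∃ A : Set ℕ, (∀ n ∈ A, 1 ≤ n) ∧ ¬ HasGP k A ∧ upperDensity A = d}

/-- The constant `α_k`. -/
noncomputable def alpha (k : ℕ) : ℝ := sSup (upperDensities k)

/-- The finite set `T` of positive integers contains no `k`-term geometric progression: no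
`a < b` in `T` such that all the numbers `a (b / a) ^ i`, `i < k`, lie in `T`. -/
def Free (k : ℕ) (T : Finset ℕ) : Prop :=
  ∀ a ∈ T, ∀ b ∈ T, a < b → ∃ i ∈ Finset.range k, ∀ c ∈ T, c * a ^ i ≠ a * b ^ i

instance (k : ℕ) : DecidablePred (Free k) := fun T => by unfold Free; infer_instance

/-- The number `(∏_{p < K} p) ^ K`. -/
def Q (K : ℕ) : ℕ := (∏ p ∈ Nat.primesBelow K, p) ^ K

/-- The largest size of a set of divisors `t ≤ x` of `(∏_{p < K} p) ^ K` without `k`-term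
geometric progression. -/
def ext (k K x : ℕ) : ℕ :=
  ((Q K).divisors.powerset.filter (fun T => Free k T ∧ ∀ t ∈ T, t ≤ x)).sup Finset.card

/-- The rational number `∏_{p < K} (1 - 1 / p) * ∑ (ext k K t - ext k K (t - 1)) / t`, the sum over
the divisors `t` of `(∏_{p < K} p) ^ K`. This is a computable function of `k` and `K`. -/
def opt (k K : ℕ) : ℚ :=
  (∏ p ∈ Nat.primesBelow K, (1 - 1 / (p : ℚ))) *
    ∑ t ∈ (Q K).divisors, ((ext k K t : ℚ) - (ext k K (t - 1) : ℚ)) / (t : ℚ)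

lemma hasGP_iff {k : ℕ} (hk : 3 ≤ k) {A : Set ℕ} (hA : ∀ n ∈ A, 1 ≤ n) :
    HasGP k A ↔ KG.HasGP k A := by
  constructor
  · rintro ⟨a, q, hq, h⟩
    obtain ⟨n0, m0, e0⟩ := h 0 (by omega)
    rw [pow_zero, mul_one] at e0
    have e0' : n0 = a := by exact_mod_cast e0
    refine ⟨a, (q : ℝ), ?_, by exact_mod_cast hq, fun i hi => ?_⟩
    · rw [← e0']; exact_mod_cast hA n0 m0
    · obtain ⟨n, mn, e⟩ := h i hi
      exact ⟨n, mn, by exact_mod_cast congrArg (fun x : ℚ => (x : ℝ)) e⟩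
  · rintro ⟨a, r, ha, hr, h⟩
    obtain ⟨n0, m0, e0⟩ := h 0 (by omega)
    obtain ⟨n1, m1, e1⟩ := h 1 (by omega)
    rw [pow_zero, mul_one] at e0
    rw [pow_one] at e1
    have hn0 : (0 : ℚ) < n0 := by exact_mod_cast hA n0 m0
    have hn0' : (0 : ℝ) < n0 := by exact_mod_cast hA n0 m0
    have hr' : r = ((n1 / n0 : ℚ) : ℝ) := by
      push_cast
      rw [e1, ← e0]
      field_simp
    refine ⟨n0, (n1 : ℚ) / n0, ?_, fun i hi => ?_⟩
    · rw [one_lt_div hn0]
      have : (n0 : ℝ) < n1 := by rw [e0, e1]; nlinarith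
      exact_mod_cast this
    · obtain ⟨n, mn, e⟩ := h i hi
      refine ⟨n, mn, ?_⟩
      have : ((n : ℚ) : ℝ) = (((n0 : ℚ) * ((n1 : ℚ) / n0) ^ i : ℚ) : ℝ) := by
        rw [Rat.cast_mul, Rat.cast_pow, ← hr']
        push_cast
        rw [e, e0]
      exact_mod_cast this

lemma ext_eq {k : ℕ} (hk : 3 ≤ k) (K x : ℕ) :
    ext k K x = KG.g k ((KG.Q K).divisors : Set ℕ) x := by
  have hpos : ∀ T ⊆ (KG.Q K).divisors, ∀ n ∈ T, 1 ≤ n := fun T hT n hn =>
    Nat.pos_of_mem_divisors (hT hn)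
  apply le_antisymm
  · apply Finset.sup_le
    intro T hT
    rw [Finset.mem_filter, Finset.mem_powerset] at hT
    have hp := hpos T hT.1
    apply KG.le_g
    refine ⟨Finset.coe_subset.2 hT.1, fun t ht => ⟨hp t ht, hT.2.2 t ht⟩, ?_⟩
    exact (KG.hasGP_iff hk fun n hn => hp n (Finset.mem_coe.1 hn)).1
      ((KG.freeK_iff (by omega) hp).1 hT.2.1)
  · obtain ⟨T, hT, hc⟩ := KG.exists_g hk ((KG.Q K).divisors : Set ℕ) x
    rw [← hc]
    apply Finset.le_sup (f := Finset.card)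
    have hs : T ⊆ (KG.Q K).divisors := Finset.coe_subset.1 hT.1
    have hp := hpos T hs
    rw [Finset.mem_filter, Finset.mem_powerset]
    refine ⟨hs, ?_, fun t ht => (hT.2.1 t ht).2⟩
    exact (KG.freeK_iff (by omega) hp).2
      ((KG.hasGP_iff hk fun n hn => hp n (Finset.mem_coe.1 hn)).2 hT.2.2)

lemma opt_eq {k : ℕ} (hk : 3 ≤ k) (K : ℕ) : (opt k K : ℝ) = KG.u k K := by
  unfold opt KG.u KG.P KG.W
  rw [tsum_eq_sum (s := (KG.Q K).divisors)]
  · push_cast
    congr 1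
    · simp [one_div]
    · refine Finset.sum_congr rfl fun t ht => ?_
      have ht1 : 1 ≤ t := Nat.pos_of_mem_divisors ht
      obtain ⟨x, rfl⟩ : ∃ x, t = x + 1 := ⟨t - 1, by omega⟩
      rw [ext_eq hk, ext_eq hk, ← KG.cnt_J hk, ← KG.cnt_J hk, Nat.add_sub_cancel]
      by_cases hJ : x + 1 ∈ KG.J k ((KG.Q K).divisors : Set ℕ)
      · rw [KG.cnt_succ_mem hJ, Set.indicator_of_mem hJ]
        push_cast
        ring
      · rw [KG.cnt_succ_not_mem hJ, Set.indicator_of_notMem hJ]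
        simp
  · intro t ht
    apply Set.indicator_of_notMem
    intro h
    exact ht (Finset.mem_coe.1 (KG.J_sub _ _ h))

/-- For every `k ≥ 3` the constant `α_k` is the limit of the computable sequence of rationals
`opt k K`, with explicit error bounds, and the supremum defining `α_k` is attained. -/
theorem result (k : ℕ) (hk : 3 ≤ k) :
    Tendsto (fun K : ℕ => (opt k K : ℝ)) atTop (𝓝 (alpha k)) ∧
    (∀ K : ℕ, 2 ≤ K →
      (opt k K : ℝ) - 1 / ((K : ℝ) - 1) ≤ alpha k ∧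
      alpha k ≤ (opt k K : ℝ) + (K : ℝ) / 2 ^ (K + 1)) ∧
    IsGreatest (upperDensities k) (alpha k) := by
  obtain ⟨s, h1, h2, ⟨A, a1, a2, a3⟩, h3⟩ := KG.mainU hk
  have hgr : IsGreatest (upperDensities k) s := by
    refine ⟨⟨A, a1, fun h => (KG.hasGP_iff hk a1).2 a2 ((hasGP_iff hk a1).1 h), a3⟩, ?_⟩
    rintro d ⟨B, b1, b2, rfl⟩
    exact h3 B b1 ((KG.hasGP_iff hk b1).1 fun h => b2 ((hasGP_iff hk b1).2 h))
  have hα : alpha k = s := hgr.csSup_eq
  have hopt : (fun K : ℕ => (opt k K : ℝ)) = KG.u k := funext (opt_eq hk)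
  rw [hα]
  exact ⟨by rw [hopt]; exact h1, fun K hK => by rw [opt_eq hk]; exact h2 K hK, hgr⟩

end Pool.Agent.Results.MP_f5ac68_nt.UpperDensity
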